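import Pool.Agent.H54.WM.Targets

/-!
# The collapse
-/

open Ordinal Cardinal Order Set
open scoped ZFSet

universe u

namespace Pool.Agent.H60.WM.COL

open _root_.HD Pool.Agent.H54.WM

theorem X : T_COL.{u} := by
  classical
  intro α E Q wf hrefl hsymm htrans hcong hext hsmall
  choose ι g hg using hsmall
  let π : α → ZFSet.{u} := wf.fix fun t ih =>
    ZFSet.range fun p : {i : ι t // E (g t i) t} => ih (g t p.1) p.2
  have hπ : ∀ t, π t = ZFSet.range fun p : {i : ι t // E (g t i) t} => π (g t p.1) := by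
    intro t
    exact wf.fix_eq _ t
  have hmem : ∀ t x, x ∈ π t ↔ ∃ i, E (g t i) t ∧ π (g t i) = x := by
    intro t x
    rw [hπ t, ZFSet.mem_range]
    constructor
    · rintro ⟨⟨i, hi⟩, rfl⟩
      exact ⟨i, hi, rfl⟩
    · rintro ⟨i, hi, rfl⟩
      exact ⟨⟨i, hi⟩, rfl⟩
  -- equal terms have equal images
  have h1 : ∀ s t, Q s t → π s = π t := by
    intro s
    induction s using wf.induction with
    | _ s ih =>
      intro t hst
      apply ZFSet.ext
      intro x
      rw [hmem, hmem]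
      constructor
      · rintro ⟨i, hi, rfl⟩
        have h2 : E (g s i) t := hcong _ _ _ _ (hrefl _) hst hi
        obtain ⟨i', hi', hq⟩ := hg t _ h2
        exact ⟨i', hi', (ih _ hi _ hq).symm⟩
      · rintro ⟨i, hi, rfl⟩
        have h2 : E (g t i) s := hcong _ _ _ _ (hrefl _) (hsymm _ _ hst) hi
        obtain ⟨i', hi', hq⟩ := hg s _ h2
        exact ⟨i', hi', ih _ hi' _ (hsymm _ _ hq)⟩
  have h2 : ∀ s t, E s t → π s ∈ π t := by
    intro s t hst
    obtain ⟨i, hi, hq⟩ := hg t s hst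
    exact (hmem _ _).2 ⟨i, hi, (h1 _ _ hq).symm⟩
  have h3 : ∀ s t, π s = π t → Q s t := by
    intro s
    induction s using wf.induction with
    | _ s ih =>
      intro t hst
      apply hext
      intro r
      constructor
      · intro hr
        have h4 : π r ∈ π t := hst ▸ h2 _ _ hr
        obtain ⟨i, hi, he⟩ := (hmem _ _).1 h4
        exact hcong _ _ _ _ (hsymm _ _ (ih r hr _ he.symm)) (hrefl _) hi
      · intro hr
        have h4 : π r ∈ π s := hst ▸ h2 _ _ hr
        obtain ⟨i, hi, he⟩ := (hmem _ _).1 h4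
        exact hcong _ _ _ _ (ih _ hi _ he) (hrefl _) hi
  refine ⟨π, fun s t => ⟨h2 s t, fun h => ?_⟩, fun s t => ⟨h1 s t, h3 s t⟩, fun t x hx => ?_⟩
  · obtain ⟨i, hi, he⟩ := (hmem _ _).1 h
    exact hcong _ _ _ _ (h3 _ _ he) (hrefl _) hi
  · obtain ⟨i, hi, he⟩ := (hmem _ _).1 hx
    exact ⟨_, hi, he⟩

end Pool.Agent.H60.WM.COL
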